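import Mathlib
import Pool.Agent.H316.EM.Stm2

/-!
# Project EM, task SUB: restriction of a datum to a stable subgroup
-/

set_option autoImplicit false

namespace Pool.Agent.H757.EM

open Pool.Agent.H316.EM

section
variable {k : ℕ} {V : Type} [AddCommGroup V] [Module (ZMod 2) V]

/-- restriction of an automorphism -/
noncomputable def rst (Y : Submodule (ZMod 2) V) (g : Au V) (hg : ∀ y, y ∈ Y ↔ g y ∈ Y) : Au Y where
  toFun y := ⟨g y, (hg y).1 y.2⟩
  invFun y := ⟨g.symm y, (hg _).2 (by rw [LinearEquiv.apply_symm_apply]; exact y.2)⟩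
  left_inv y := by
    apply Subtype.ext
    exact g.symm_apply_apply _
  right_inv y := by
    apply Subtype.ext
    exact g.apply_symm_apply _
  map_add' x y := by
    apply Subtype.ext
    exact map_add g _ _
  map_smul' c x := by
    apply Subtype.ext
    exact map_smul g _ _

theorem rst_coe (Y : Submodule (ZMod 2) V) (g : Au V) (hg : ∀ y, y ∈ Y ↔ g y ∈ Y) (y : Y) :
    ((rst Y g hg y : Y) : V) = g y := rfl

theorem rst_ext {Y : Submodule (ZMod 2) V} {g g' : Au Y} (h : ∀ y : Y, (g y : V) = g' y) : g = g' := by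
  apply LinearEquiv.ext
  intro y
  exact Subtype.ext (h y)

theorem mul_iff {Y : Submodule (ZMod 2) V} {g g' : Au V} (hg : ∀ y, y ∈ Y ↔ g y ∈ Y)
    (hg' : ∀ y, y ∈ Y ↔ g' y ∈ Y) : ∀ y, y ∈ Y ↔ (g * g') y ∈ Y := by
  intro y
  rw [hg' y, hg (g' y)]
  rfl

theorem inv_iff {Y : Submodule (ZMod 2) V} {g : Au V} (hg : ∀ y, y ∈ Y ↔ g y ∈ Y) :
    ∀ y, y ∈ Y ↔ g⁻¹ y ∈ Y := by
  intro y
  rw [hg (g⁻¹ y)]
  have : g (g⁻¹ y) = y := g.apply_symm_apply y
  rw [this]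

theorem L_iff (D : Dat k V) {j : ℕ} {Y : Submodule (ZMod 2) V} (h : D.Stb j Y) (l : Au V)
    (hl : l ∈ D.L) : ∀ y, y ∈ Y ↔ l y ∈ Y := by
  intro y
  refine ⟨h.1 l hl y, fun h1 => ?_⟩
  have h2 := h.1 l⁻¹ (D.L.inv_mem hl) _ h1
  have : l⁻¹ (l y) = y := l.symm_apply_apply y
  rwa [this] at h2

theorem B_iff (D : Dat k V) {j : ℕ} {Y : Submodule (ZMod 2) V} (h : D.Stb j Y) (b : B) :
    ∀ y, y ∈ Y ↔ D.β b y ∈ Y := by
  intro y
  refine ⟨h.2.1 b y, fun h1 => ?_⟩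
  have h2 := h.2.1 b⁻¹ _ h1
  rw [map_inv] at h2
  have : (D.β b)⁻¹ (D.β b y) = y := (D.β b).symm_apply_apply y
  rwa [this] at h2

/-- restriction of the elements of `L` -/
noncomputable def resL (D : Dat k V) {j : ℕ} {Y : Submodule (ZMod 2) V} (h : D.Stb j Y) :
    D.L →* Au Y where
  toFun l := rst Y l (L_iff D h l l.2)
  map_one' := rst_ext fun _ => rfl
  map_mul' _ _ := rst_ext fun _ => rfl

/-- restriction of `β` -/
noncomputable def resB (D : Dat k V) {j : ℕ} {Y : Submodule (ZMod 2) V} (h : D.Stb j Y) :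
    B →* Au Y where
  toFun b := rst Y (D.β b) (B_iff D h b)
  map_one' := rst_ext fun y => by
    rw [rst_coe, map_one]
    rfl
  map_mul' a b := rst_ext fun y => by
    rw [rst_coe, map_mul]
    rfl

theorem tβ_pow (D : Dat k V) (j : ℕ) (b : B) :
    D.t ^ j * D.β b * (D.t ^ j)⁻¹ = D.β ((th ^ (k * j)) b) := by
  induction j generalizing b with
  | zero => simp
  | succ j ih =>
    have h1 : D.t ^ (j + 1) * D.β b * (D.t ^ (j + 1))⁻¹ =
        D.t ^ j * (D.t * D.β b * D.t⁻¹) * (D.t ^ j)⁻¹ := by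
      rw [pow_succ]
      group
    rw [h1, D.tβ, ih, mul_add, mul_one, pow_add, MulAut.mul_apply]

theorem Lt_pow (D : Dat k V) (j : ℕ) (l : Au V) : l ∈ D.L ↔ D.t ^ j * l * (D.t ^ j)⁻¹ ∈ D.L := by
  induction j generalizing l with
  | zero => simp
  | succ j ih =>
    have h1 : D.t ^ (j + 1) * l * (D.t ^ (j + 1))⁻¹ =
        D.t ^ j * (D.t * l * D.t⁻¹) * (D.t ^ j)⁻¹ := by
      rw [pow_succ]
      group
    rw [h1, ← ih, ← D.Lt]

theorem A₀t_pow (D : Dat k V) (j : ℕ) (a : KK) : a ∈ D.A₀ ↔ (tA ^ (k * j)) a ∈ D.A₀ := by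
  induction j generalizing a with
  | zero => simp
  | succ j ih =>
    rw [mul_add, mul_one, pow_add, LinearEquiv.mul_apply, ← ih, ← D.A₀t]

theorem αt_pow (D : Dat k V) (j : ℕ) (a : KK) (ha : a ∈ D.A₀) :
    D.α ((tA ^ (k * j)) a) = (D.t ^ j) (D.α a) := by
  induction j generalizing a with
  | zero => simp
  | succ j ih =>
    rw [mul_add, mul_one, pow_add, LinearEquiv.mul_apply, ih _ ((D.A₀t a).1 ha), D.αt a ha, pow_succ,
      LinearEquiv.mul_apply]

/-- the `L`-submodule generated by a finite set -/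
def gen (D : Dat k V) (Y : Submodule (ZMod 2) V) (S : Finset Y) : Submodule (ZMod 2) V :=
  Submodule.span (ZMod 2) {x : V | ∃ l ∈ D.L, ∃ s ∈ S, x = l (s : V)}

theorem gen_stable (D : Dat k V) (Y : Submodule (ZMod 2) V) (S : Finset Y) :
    ∀ l ∈ D.L, ∀ x ∈ gen D Y S, l x ∈ gen D Y S := by
  intro l hl x hx
  have h1 : gen D Y S ≤ (gen D Y S).comap (l : V →ₗ[ZMod 2] V) := by
    unfold gen
    rw [Submodule.span_le]
    rintro y ⟨l', hl', s, hs, rfl⟩
    rw [SetLike.mem_coe, Submodule.mem_comap]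
    apply Submodule.subset_span
    exact ⟨l * l', D.L.mul_mem hl hl', s, hs, rfl⟩
  exact h1 hx

theorem gen_le (D : Dat k V) {j : ℕ} (Y : Submodule (ZMod 2) V) (h : D.Stb j Y) (S : Finset Y) :
    gen D Y S ≤ Y := by
  unfold gen
  rw [Submodule.span_le]
  rintro y ⟨l, hl, s, hs, rfl⟩
  exact h.1 l hl s s.2

theorem exists_gen (hacc : S_ACC) (D : Dat k V) {j : ℕ} (Y : Submodule (ZMod 2) V)
    (h : D.Stb j Y) : ∃ S : Finset Y, gen D Y S = Y := by
  classical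
  by_contra hne
  push Not at hne
  have h1 : ∀ S : Finset Y, ∃ y : Y, (y : V) ∉ gen D Y S := by
    intro S
    by_contra h2
    push Not at h2
    exact hne S (le_antisymm (gen_le D Y h S) fun y hy => h2 ⟨y, hy⟩)
  choose y hy using h1
  let S : ℕ → Finset Y := fun n => Nat.rec ∅ (fun _ T => insert (y T) T) n
  have hS : ∀ n, S (n + 1) = insert (y (S n)) (S n) := fun n => rfl
  have hmono : Monotone fun n => gen D Y (S n) := by
    apply monotone_nat_of_le_succ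
    intro n
    unfold gen
    apply Submodule.span_mono
    rintro x ⟨l, hl, s, hs, rfl⟩
    exact ⟨l, hl, s, by rw [hS]; exact Finset.mem_insert_of_mem hs, rfl⟩
  obtain ⟨n, hn⟩ := hacc k V D (fun n => gen D Y (S n)) hmono (fun n => gen_stable D Y (S n))
  have h2 := hn (n + 1) (Nat.le_succ n)
  apply hy (S n)
  have h3 : (y (S n) : V) ∈ gen D Y (S (n + 1)) := by
    apply Submodule.subset_span
    exact ⟨1, D.L.one_mem, y (S n), by rw [hS]; exact Finset.mem_insert_self _ _, rfl⟩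
  have h4 : gen D Y (S (n + 1)) = gen D Y (S n) := h2
  rwa [h4] at h3

theorem fg_res (hacc : S_ACC) (D : Dat k V) {j : ℕ} (Y : Submodule (ZMod 2) V) (h : D.Stb j Y) :
    ∃ S : Finset Y, Submodule.span (ZMod 2) {x : Y | ∃ l ∈ (resL D h).range, ∃ s ∈ S, x = l s} = ⊤ := by
  obtain ⟨S, hS⟩ := exists_gen hacc D Y h
  refine ⟨S, ?_⟩
  rw [eq_top_iff]
  intro y _
  have h1 : Submodule.map Y.subtype
      (Submodule.span (ZMod 2) {x : Y | ∃ l ∈ (resL D h).range, ∃ s ∈ S, x = l s}) = gen D Y S := by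
    rw [Submodule.map_span]
    unfold gen
    congr 1
    ext x
    constructor
    · rintro ⟨z, ⟨_, ⟨l, rfl⟩, s, hs, rfl⟩, rfl⟩
      exact ⟨l, l.2, s, hs, rfl⟩
    · rintro ⟨l, hl, s, hs, rfl⟩
      exact ⟨resL D h ⟨l, hl⟩ s, ⟨_, ⟨⟨l, hl⟩, rfl⟩, s, hs, rfl⟩, rfl⟩
  have h2 : (y : V) ∈ gen D Y S := by
    rw [hS]
    exact y.2
  rw [← h1] at h2
  obtain ⟨z, hz, hzy⟩ := h2
  have : z = y := Subtype.ext hzy
  rwa [← this]

/-- the image of a subgroup of finite index is infinite -/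
theorem image_infinite (D : Dat k V) (A₁ : Submodule (ZMod 2) KK) (h1 : A₁ ≤ D.A₀) (h2 : Fi A₁ AA) :
    (D.α '' A₁).Infinite := by
  intro hfin
  apply D.inf
  have h3 : A₁.toAddSubgroup.relIndex D.A₀.toAddSubgroup ≠ 0 := by
    intro h4
    exact h2 (AddSubgroup.relIndex_eq_zero_of_le_right
      (Submodule.toAddSubgroup_le _ _ |>.2 D.A₀le) h4)
  have : (A₁.toAddSubgroup.addSubgroupOf D.A₀.toAddSubgroup).FiniteIndex := ⟨h3⟩
  have : Finite (D.A₀.toAddSubgroup ⧸ A₁.toAddSubgroup.addSubgroupOf D.A₀.toAddSubgroup) :=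
    AddSubgroup.finite_quotient_of_finiteIndex
  let T : Set V := Set.range fun c : D.A₀.toAddSubgroup ⧸ A₁.toAddSubgroup.addSubgroupOf D.A₀.toAddSubgroup =>
    D.α ((Quotient.out c : D.A₀.toAddSubgroup) : KK)
  have hT : T.Finite := Set.finite_range _
  refine (hT.add hfin).subset ?_
  rintro _ ⟨a, ha, rfl⟩
  set c : D.A₀.toAddSubgroup ⧸ A₁.toAddSubgroup.addSubgroupOf D.A₀.toAddSubgroup :=
    QuotientAddGroup.mk ⟨a, ha⟩ with hc
  have h5 : -(Quotient.out c : D.A₀.toAddSubgroup) + ⟨a, ha⟩ ∈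
      A₁.toAddSubgroup.addSubgroupOf D.A₀.toAddSubgroup := by
    rw [← QuotientAddGroup.eq]
    rw [← hc]
    exact Quotient.out_eq c
  have h6 : -((Quotient.out c : D.A₀.toAddSubgroup) : KK) + a ∈ A₁ := h5
  refine ⟨_, ⟨c, rfl⟩, _, ⟨_, h6, rfl⟩, ?_⟩
  show D.α ((Quotient.out c : D.A₀.toAddSubgroup) : KK) +
    D.α (-((Quotient.out c : D.A₀.toAddSubgroup) : KK) + a) = D.α a
  rw [← D.αadd _ (Quotient.out c : D.A₀.toAddSubgroup).2 _ (h1 h6)]
  congr 1
  abel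

end

open Classical in
/-- the restricted datum -/
noncomputable def resD (hacc : S_ACC) {k : ℕ} {V : Type} [AddCommGroup V] [Module (ZMod 2) V]
    (D : Dat k V) (j : ℕ) (Y : Submodule (ZMod 2) V) (h : D.Stb j Y) (hfi : Fi (D.pre Y) AA) :
    Dat (k * j) Y where
  L := (resL D h).range
  Lfg := by
    have : Group.FG D.L := (Group.fg_iff_subgroup_fg D.L).2 D.Lfg
    exact (Group.fg_iff_subgroup_fg _).1 (Group.fg_range (resL D h))
  Lcomm := by
    rintro _ ⟨x, rfl⟩ _ ⟨y, rfl⟩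
    rw [← map_mul, ← map_mul]
    congr 1
    exact Subtype.ext (D.Lcomm x x.2 y y.2)
  β := resB D h
  t := rst Y (D.t ^ j) h.2.2
  tβ b := by
    rw [mul_inv_eq_iff_eq_mul]
    apply rst_ext
    intro y
    have h1 := tβ_pow D j b
    rw [mul_inv_eq_iff_eq_mul] at h1
    exact LinearEquiv.congr_fun h1 (y : V)
  Lβ := by
    rintro b _ ⟨l, rfl⟩
    refine ⟨⟨_, D.Lβ b l l.2⟩, ?_⟩
    rw [eq_mul_inv_iff_mul_eq]
    apply rst_ext
    intro y
    show (D.β b * (l : Au V) * (D.β b)⁻¹ * D.β b) (y : V) = (D.β b * (l : Au V)) (y : V)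
    rw [inv_mul_cancel_right]
  Lt l := by
    constructor
    · rintro ⟨l, rfl⟩
      refine ⟨⟨_, (Lt_pow D j l).1 l.2⟩, ?_⟩
      rw [eq_mul_inv_iff_mul_eq]
      apply rst_ext
      intro y
      show (D.t ^ j * (l : Au V) * (D.t ^ j)⁻¹ * D.t ^ j) (y : V) = (D.t ^ j * (l : Au V)) (y : V)
      rw [inv_mul_cancel_right]
    · rintro ⟨l₁, hl₁⟩
      have h1 : (D.t ^ j)⁻¹ * (l₁ : Au V) * D.t ^ j ∈ D.L := by
        rw [Lt_pow D j]
        have : D.t ^ j * ((D.t ^ j)⁻¹ * (l₁ : Au V) * D.t ^ j) * (D.t ^ j)⁻¹ = l₁ := by group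
        rw [this]
        exact l₁.2
      refine ⟨⟨_, h1⟩, ?_⟩
      rw [eq_mul_inv_iff_mul_eq] at hl₁
      have h2 : rst Y (D.t ^ j) h.2.2 * resL D h ⟨_, h1⟩ = rst Y (D.t ^ j) h.2.2 * l := by
        rw [← hl₁]
        apply rst_ext
        intro y
        show (D.t ^ j * ((D.t ^ j)⁻¹ * (l₁ : Au V) * D.t ^ j)) (y : V) = ((l₁ : Au V) * D.t ^ j) (y : V)
        congr 1
        group
      exact mul_left_cancel h2
  fg := fg_res hacc D Y h
  A₀ := D.pre Y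
  A₀le := fun a ha => D.A₀le ha.1
  A₀fin := hfi
  A₀β b a ha := ⟨D.A₀β b a ha.1, by rw [D.αβ b a ha.1]; exact h.2.1 b _ ha.2⟩
  A₀t a := by
    rw [D.mem_pre, D.mem_pre, ← A₀t_pow D j a]
    constructor
    · rintro ⟨h1, h2⟩
      exact ⟨h1, by rw [αt_pow D j a h1]; exact (h.2.2 _).1 h2⟩
    · rintro ⟨h1, h2⟩
      rw [αt_pow D j a h1] at h2
      exact ⟨h1, (h.2.2 _).2 h2⟩
  α a := if ha : D.α a ∈ Y then ⟨D.α a, ha⟩ else 0
  αadd a ha a' ha' := by
    have h1 : D.α (a + a') ∈ Y := ((D.pre Y).add_mem ha ha').2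
    rw [dif_pos ha.2, dif_pos ha'.2, dif_pos h1]
    apply Subtype.ext
    exact D.αadd a ha.1 a' ha'.1
  αβ b a ha := by
    have h1 : D.α (mB b a) ∈ Y := by rw [D.αβ b a ha.1]; exact h.2.1 b _ ha.2
    rw [dif_pos ha.2, dif_pos h1]
    apply Subtype.ext
    exact D.αβ b a ha.1
  αt a ha := by
    have h1 : D.α ((tA ^ (k * j)) a) ∈ Y := by rw [αt_pow D j a ha.1]; exact (h.2.2 _).1 ha.2
    rw [dif_pos ha.2, dif_pos h1]
    apply Subtype.ext
    exact αt_pow D j a ha.1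
  inf := by
    intro hfin
    apply image_infinite D (D.pre Y) (fun a ha => ha.1) hfi
    refine (hfin.image (fun y : Y => (y : V))).subset ?_
    rintro _ ⟨a, ha, rfl⟩
    refine ⟨_, ⟨a, ha, rfl⟩, ?_⟩
    show ((if ha : D.α a ∈ Y then (⟨D.α a, ha⟩ : Y) else 0 : Y) : V) = D.α a
    rw [dif_pos ha.2]

theorem em_sub : S_ACC → S_SUB := by
  classical
  intro hacc k V _ _ D j _ Y h hfi
  refine ⟨resD hacc D j Y h hfi, rfl, ?_, fun b y => rfl, fun y => rfl, ?_, ?_⟩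
  · intro a ha
    show ((if ha : D.α a ∈ Y then (⟨D.α a, ha⟩ : Y) else 0 : Y) : V) = D.α a
    rw [dif_pos ha.2]
  · rintro _ ⟨l, rfl⟩
    exact ⟨l, l.2, fun y => rfl⟩
  · intro l hl
    exact ⟨resL D h ⟨l, hl⟩, ⟨_, rfl⟩, fun y => rfl⟩

end Pool.Agent.H757.EM

theorem Pool.Agent.H757.em_sub : Pool.Agent.H316.EM.S_ACC → Pool.Agent.H316.EM.S_SUB :=
  Pool.Agent.H757.EM.em_sub
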